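import Mathlib

/-!
Definitions: bar-joint frameworks in the space of dimension `d` with the `q`-norm.
-/

set_option autoImplicit false

open scoped ENNReal

namespace Pool.Agent.MP_7ac2f5_co

/-- The `q`-norm on real `d`-space, `q` an extended nonnegative real. -/
noncomputable def lqNorm (q : ℝ≥0∞) (d : ℕ) (x : Fin d → ℝ) : ℝ :=
  ‖(WithLp.toLp q x : PiLp q fun _ : Fin d => ℝ)‖

/-- The norm is differentiable at every edge vector. -/
def WellPositioned (q : ℝ≥0∞) (d : ℕ) {V : Type} (G : SimpleGraph V) (p : V → Fin d → ℝ) : Prop :=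
  ∀ u v, G.Adj u v → DifferentiableAt ℝ (lqNorm q d) (p u - p v)

/-- Infinitesimal flex. -/
def IsFlex (q : ℝ≥0∞) (d : ℕ) {V : Type} (G : SimpleGraph V) (p m : V → Fin d → ℝ) : Prop :=
  ∀ u v, G.Adj u v → fderiv ℝ (lqNorm q d) (p u - p v) (m u - m v) = 0

/-- Well positioned, and every infinitesimal flex is constant. -/
def Rigid (q : ℝ≥0∞) (d : ℕ) {V : Type} (G : SimpleGraph V) (p : V → Fin d → ℝ) : Prop :=
  WellPositioned q d G p ∧ ∀ m, IsFlex q d G p m → ∀ u v, m u = m v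

/-- Rigid, and rigid after deleting any one edge. -/
def RedundantlyRigid (q : ℝ≥0∞) (d : ℕ) {V : Type} (G : SimpleGraph V) (p : V → Fin d → ℝ) :
    Prop :=
  Rigid q d G p ∧ ∀ e ∈ G.edgeSet, Rigid q d (G.deleteEdges {e}) p

/-- The edge set is the disjoint union of the edge sets of `d` Hamilton cycles. -/
def HamiltonDecomposable (d : ℕ) {V : Type} [DecidableEq V] (G : SimpleGraph V) : Prop :=
  ∃ (x : Fin d → V) (H : ∀ i, G.Walk (x i) (x i)),
    (∀ i, (H i).IsHamiltonianCycle) ∧ ∀ e ∈ G.edgeSet, ∃! i, e ∈ (H i).edges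

end Pool.Agent.MP_7ac2f5_co
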